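import Pool.Agent.U744.SA.Two

set_option autoImplicit false

open Cardinal Ordinal

universe u

namespace Pool.Agent.Results.MP_8a899a_lc.SingularCardinals

/-- `B` is superatomic: every homomorphic image of `B` is atomic. -/
def Superatomic (B : Type u) [BooleanAlgebra B] : Prop :=
  ∀ (C : Type u) [BooleanAlgebra C] (f : BoundedLatticeHom B C), Function.Surjective f →
    IsAtomic C

/-- Property (∗): `B` is isomorphic to each of its subalgebras of cardinality `#B`. -/
def StarProp (B : Type u) [BooleanAlgebra B] : Prop :=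
  ∀ A : BooleanSubalgebra B, #A = #B → Nonempty (A ≃o B)

/-- The covering condition for `κ`: for every `θ < κ` there is `μ < κ` such that every set of
cardinality less than `κ` has a family of fewer than `κ` subsets of cardinality at most `μ` which
covers all its subsets of cardinality at most `θ`. -/
def Covering (κ : Cardinal.{u}) : Prop :=
  ∀ θ < κ, ∃ μ < κ, ∀ S : Type u, #S < κ →
    ∃ F : Set (Set S), #F < κ ∧ (∀ Y ∈ F, #Y ≤ μ) ∧ ∀ W : Set S, #W ≤ θ → ∃ Y ∈ F, W ⊆ Y

/-- For every `ρ < cf κ` a set of cardinality `cf κ` has a family of fewer than `κ` subsets of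
cardinality at most `ρ` which covers all its subsets of cardinality at most `ρ`. -/
def CofCovering (κ : Cardinal.{u}) : Prop :=
  ∀ S : Type u, #S = κ.ord.cof → ∀ ρ < #S,
    ∃ F : Set (Set S), #F < κ ∧ (∀ Y ∈ F, #Y ≤ ρ) ∧ ∀ W : Set S, #W ≤ ρ → ∃ Y ∈ F, W ⊆ Y

/-- The cardinals `2 ^ τ` for `τ < cf κ` are bounded below `κ`. -/
def SmallPowers (κ : Cardinal.{u}) : Prop :=
  ∃ m < κ, ∀ τ < κ.ord.cof, (2 : Cardinal.{u}) ^ τ ≤ m

/-- (1) Let `κ` be an infinite cardinal with the covering condition such that the cofinality of `κ`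
is less than `ℵ_ω`, or `CofCovering κ`, or `SmallPowers κ`. Then every Boolean algebra of
cardinality `κ` with property (∗) is superatomic. (2) For every ordinal `α` every Boolean algebra of
cardinality `ℵ_(α + ω)` with property (∗) is superatomic. -/
theorem result :
    (∀ κ : Cardinal.{u}, ℵ₀ ≤ κ → Covering κ →
      (κ.ord.cof < ℵ_ ω ∨ CofCovering κ ∨ SmallPowers κ) →
      ∀ (B : Type u) [BooleanAlgebra B], #B = κ → StarProp B → Superatomic B) ∧
    ∀ α : Ordinal.{u}, ∀ (B : Type u) [BooleanAlgebra B], #B = ℵ_ (α + ω) → StarProp B →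
      Superatomic B := by
  refine ⟨fun κ hω h2 h1 B _ hB hstar C _ f hf => ?_, fun α B _ hB hstar C _ f hf => ?_⟩
  · refine Pool.Agent.Helper372.SuperAt.isAtomic_of_sc_top ?_ f hf
    have hst : ∀ A : BooleanSubalgebra B, #A = κ → Nonempty (A ≃o B) := fun A hA =>
      hstar A (hA.trans hB.symm)
    rcases lt_or_ge κ.ord.cof κ with hs | hr
    · rcases h1 with h1 | h1 | h1
      · exact Pool.Agent.U744.SA.sc_top_of_cover' hω hB hst hs
          (Pool.Agent.U744.SA.cofCover_of_lt hω hs h1) h2
      · exact Pool.Agent.U744.SA.sc_top_of_cover' hω hB hst hs h1 h2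
      · exact Pool.Agent.U744.SA.sc_top_of_cover hω hB hst h1 h2
    · exact Pool.Agent.Helper372.SuperAt.sc_top_of_regular ⟨hω, hr⟩ hB hst
  · refine Pool.Agent.Helper372.SuperAt.isAtomic_of_sc_top ?_ f hf
    exact Pool.Agent.U744.SA.sc_top_of_aleph α hB fun A hA => hstar A (hA.trans hB.symm)

end Pool.Agent.Results.MP_8a899a_lc.SingularCardinals
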